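import Pool.Agent.H41.PS.GRP
import Pool.Agent.H41.PS.Main
import Pool.Agent.H41.PS.RL
import Pool.Agent.H41.PS.Stm2
import Pool.Agent.H190.PS.MASK
import Pool.Agent.H230.PS.LIN
import Pool.Agent.H233.PS.TRN
import Pool.Agent.H297.PS.PAIR
import Pool.Agent.H376.PS.PS
import Pool.Agent.H354.PS.BENT
import Pool.Agent.H385.PS.ENUM
import Pool.Agent.H551.PS.EXT
import Pool.Agent.H658.PS.SW
import Pool.Agent.H784.PS.LEAF
import Pool.Agent.H870.PS.LT

set_option autoImplicit false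

/-! A bent function of the class `PS^-` in ten variables that is not weakly normal. -/

namespace Pool.Agent.Results.MP_17ab9e_co.NotWeaklyNormal

/-- The space `F_2 ^ n` with `n = 2 * k`. -/
abbrev V (k : ℕ) : Type := Fin (2 * k) → ZMod 2

/-- `f` is bent: all values of its Walsh transform have absolute value `2 ^ k`. -/
def IsBent (k : ℕ) (f : V k → ZMod 2) : Prop :=
  ∀ y : V k, |∑ x, (-1 : ℤ) ^ (f x + ∑ i, x i * y i).val| = 2 ^ k

/-- The class `PS^-`: there are `2 ^ (k - 1)` subspaces `E i` of dimension `k` that pairwise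
intersect in `0`, and `f` is the indicator function of the union of the sets `E i \ {0}`. -/
def PSminus (k : ℕ) (f : V k → ZMod 2) : Prop :=
  ∃ E : Fin (2 ^ (k - 1)) → Submodule (ZMod 2) (V k),
    (∀ i, Module.finrank (ZMod 2) (E i) = k) ∧ (∀ i j, i ≠ j → E i ⊓ E j = ⊥) ∧
    ∀ x, f x = 1 ↔ ∃ i, x ∈ E i ∧ x ≠ 0

/-- `f` is normal: it is constant on some flat `c + U` of dimension `k`. -/
def Normal (k : ℕ) (f : V k → ZMod 2) : Prop :=
  ∃ (c : V k) (U : Submodule (ZMod 2) (V k)), Module.finrank (ZMod 2) U = k ∧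
    ∃ b : ZMod 2, ∀ u ∈ U, f (c + u) = b

/-- `f` is weakly normal: it is affine on some flat `c + U` of dimension `k`. -/
def WeaklyNormal (k : ℕ) (f : V k → ZMod 2) : Prop :=
  ∃ (c : V k) (U : Submodule (ZMod 2) (V k)), Module.finrank (ZMod 2) U = k ∧
    ∃ (a : V k) (b : ZMod 2), ∀ u ∈ U, f (c + u) = ∑ i, a i * (c + u) i + b

theorem normal_weaklyNormal (k : ℕ) (f : V k → ZMod 2) (h : Normal k f) : WeaklyNormal k f := by
  obtain ⟨c, U, hU, b, hb⟩ := h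
  exact ⟨c, U, hU, 0, b, fun u hu => by simp [hb u hu]⟩

open Pool.Agent.H41.PS in
theorem result :
    ∃ f : V 5 → ZMod 2, PSminus 5 f ∧ IsBent 5 f ∧ ¬ Normal 5 f ∧ ¬ WeaklyNormal 5 f := by
  obtain ⟨E, h1, h2, h3⟩ := Pool.Agent.H376.PS.t_PS
  have hw : ¬ WeaklyNormal 5 ff := by
    rintro ⟨c, U, hU, a, b, hab⟩
    exact no_flat
      (Pool.Agent.H297.PS.t_PAIR (Pool.Agent.H233.PS.t_TRN
        Pool.Agent.H190.PS.t_MASK Pool.Agent.H658.PS.t_SW))
      (Pool.Agent.H385.PS.t_ENUM Pool.Agent.H190.PS.t_MASK Pool.Agent.H658.PS.t_SW)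
      (Pool.Agent.H784.PS.t_LEAF (Pool.Agent.H870.PS.LT.t_LT t_RL Pool.Agent.H551.PS.t_EXT))
      t_GRP Pool.Agent.H230.PS.t_LIN c a b U hU hab
  refine ⟨ff, ⟨E, h1, h2, fun x => (h3 x).trans ?_⟩, ?_, fun h => hw (normal_weaklyNormal 5 ff h),
    hw⟩
  · constructor
    · rintro ⟨hx, i, hi⟩
      exact ⟨i, hi, hx⟩
    · rintro ⟨i, hi, hx⟩
      exact ⟨hx, i, hi⟩
  · exact Pool.Agent.H354.PS.BENT.t_BENT 5 (by norm_num) ff E h1 h2 h3

end Pool.Agent.Results.MP_17ab9e_co.NotWeaklyNormal
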